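import Mathlib

/-!
# Permutations with equal numbers of fixed points of powers: statement
-/

set_option autoImplicit false

namespace Pool.Agent.N20.AE

/-- PERM: two permutations of finite sets whose powers have the same numbers of fixed points are
isomorphic -/
def S_PERM : Prop := ∀ (X Y : Type) [Finite X] [Finite Y] (f : Equiv.Perm X) (g : Equiv.Perm Y),
    (∀ k : ℕ, Nat.card {x : X // (f ^ k) x = x} = Nat.card {y : Y // (g ^ k) y = y}) →
      ∃ e : X ≃ Y, ∀ x, e (f x) = g (e x)

end Pool.Agent.N20.AE
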