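import Pool.Agent.N20.AE.Asm
import Pool.Agent.N20.AE.Stm3
import Pool.Agent.N457.AEMM
import Pool.Agent.N701.AEHT
import Pool.Agent.N650.AEID
import Pool.Agent.N323.AEZE
import Pool.Agent.N691.AECV
import Pool.Agent.N291.AEPB
import Pool.Agent.N78.AEAMK
import Pool.Agent.N691.AEAUT

/-!
# The Alperin–McKay conjecture and automorphisms: the main theorems
-/

set_option autoImplicit false

open scoped Classical BigOperators

noncomputable section

namespace Pool.Agent.N20.AE

open Pool.Agent.Y63.NV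
open Pool.Agent.Y63.KR
open Pool.Agent.Y63.AWC (IsIrreducibleCharacter)
open Pool.Agent.R674.Tw (Fixes NG NE NEbar ng_le IndB)
open Pool.Agent.N20.DI (HasDef Kd InvBl kdGe)

theorem s_mm : S_MM := Pool.Agent.N457.AE.MM
theorem s_ht : S_HT := Pool.Agent.N701.AE.HT
theorem s_np : S_NP := Pool.Agent.N701.AE.NP
theorem s_up : S_UP := Pool.Agent.N701.AE.UP
theorem s_id : S_ID := Pool.Agent.N650.AEID.ID s_mm
theorem s_ze : S_ZE := Pool.Agent.N323.AEZE.ZE
theorem s_cv : S_CV := Pool.Agent.N691.AECV.CV s_mm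
theorem s_fr : S_FR := Pool.Agent.N691.AECV.FR s_mm
theorem s_pb : S_PB := Pool.Agent.N291.AEPB.PB s_mm s_ht s_np s_id s_up s_cv
theorem s_amk : S_AMK := Pool.Agent.N78.AEAMK.AMK s_pb s_up
theorem s_eq : S_EQ := EQ s_mm s_ht s_id s_up s_ze s_amk
theorem s_aut : S_AUT := Pool.Agent.N691.AEAUT.AUT s_eq

/-- with the identity automorphism -/
theorem fix_one (p : ℕ) [Fact p.Prime] {F : Type} [Field F] (red : integralClosure ℤ ℂ →+* F)
    (d : ℕ) {G : Type} [Group G] (D : Subgroup G) (B : (G → F) → F) :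
    fixB p red d B (1 : MulAut G) = kB p red d B ∧
      fixI p red d D B (1 : MulAut G) = kI p red d (Subgroup.normalizer (D : Set G)) B := by
  constructor
  · refine Nat.card_congr (Equiv.subtypeEquivRight fun χ => ?_)
    constructor
    · rintro ⟨h1, h2, h3, -⟩
      exact ⟨h1, h2, h3⟩
    · rintro ⟨h1, h2, h3⟩
      exact ⟨h1, h2, h3, fun x => rfl⟩
  · refine Nat.card_congr (Equiv.subtypeEquivRight fun χ => ?_)
    constructor
    · rintro ⟨h1, h2, h3, -⟩
      exact ⟨h1, h2, h3⟩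
    · rintro ⟨h1, h2, h3⟩
      refine ⟨h1, h2, h3, fun x y hxy => ?_⟩
      have : y = x := Subtype.ext hxy
      rw [this]

end Pool.Agent.N20.AE
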