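import Pool.Agent.N20.AE.Stm2
import Pool.Agent.N20.DI.Fin

/-!
# The Alperin–McKay conjecture and automorphisms: assembly
-/

set_option autoImplicit false
set_option linter.unusedSectionVars false

open scoped Classical BigOperators

noncomputable section

namespace Pool.Agent.N20.AE

open Pool.Agent.Y63.NV
open Pool.Agent.Y63.KR
open Pool.Agent.Y63.AWC (IsIrreducibleCharacter)
open Pool.Agent.R674.Tw (Fixes NG NE NEbar ng_le IndB)
open Pool.Agent.N20.DI
open Pool.Agent.N20.KB (irr_comp')

section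

variable {E : Type} [Group E] [Finite E] {G : Subgroup E} [G.Normal]

/-- the orders of the stabilisers -/
theorem card_stab (U : Subgroup (E ⧸ G)) (σ : Set (Subgroup E))
    (hF : ∀ g ∈ U.comap (QuotientGroup.mk' G), ∃ h ∈ G, h⁻¹ * g ∈ chainStabilizer σ) :
    Nat.card ↥(U.comap (QuotientGroup.mk' G) ⊓ chainStabilizer σ) =
      Nat.card (NG G σ) * Nat.card U := by
  obtain ⟨hGK, -⟩ := comap_rel U
  let f : ↥(U.comap (QuotientGroup.mk' G) ⊓ chainStabilizer σ) →* E ⧸ G :=
    (QuotientGroup.mk' G).comp (U.comap (QuotientGroup.mk' G) ⊓ chainStabilizer σ).subtype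
  have hker : Nat.card f.ker = Nat.card (NG G σ) := by
    refine Nat.card_congr
      { toFun := fun x => ⟨x.1.1, Subgroup.mem_inf.2 ⟨(QuotientGroup.eq_one_iff _).1 x.2,
          (Subgroup.mem_inf.1 x.1.2).2⟩⟩
        invFun := fun x => ⟨⟨x.1, Subgroup.mem_inf.2 ⟨hGK (Subgroup.mem_inf.1 x.2).1,
          (Subgroup.mem_inf.1 x.2).2⟩⟩,
          (QuotientGroup.eq_one_iff (x : E)).2 (Subgroup.mem_inf.1 x.2).1⟩
        left_inv := fun x => rfl
        right_inv := fun x => rfl }
  have hran : f.range = U := by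
    ext y
    constructor
    · rintro ⟨x, rfl⟩
      exact (Subgroup.mem_inf.1 x.2).1
    · intro hy
      obtain ⟨g, rfl⟩ := QuotientGroup.mk'_surjective G y
      obtain ⟨h, hh, h2⟩ := hF g hy
      refine ⟨⟨h⁻¹ * g, Subgroup.mem_inf.2 ⟨Subgroup.mul_mem _ (hGK (G.inv_mem hh)) hy, h2⟩⟩, ?_⟩
      change (QuotientGroup.mk' G) (h⁻¹ * g) = (QuotientGroup.mk' G) g
      rw [map_mul]
      have : (QuotientGroup.mk' G) h⁻¹ = 1 := (QuotientGroup.eq_one_iff _).2 (G.inv_mem hh)
      rw [this, one_mul]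
  have h2 := f.ker.card_mul_index
  rw [Subgroup.index_ker, hker, hran] at h2
  exact h2.symm

variable {p : ℕ} [Fact p.Prime] {F : Type} [Field F] (red : integralClosure ℤ ℂ →+* F)

/-- one chain, divided by `|N_G(C)|` -/
theorem rel_div (U : Subgroup (E ⧸ G)) (hU : IsCyclic U) (σ : Set (Subgroup E))
    (hF : ∀ g ∈ U.comap (QuotientGroup.mk' G), ∃ h ∈ G, h⁻¹ * g ∈ chainStabilizer σ)
    {z : E → F} (hz : ∀ g ∈ U.comap (QuotientGroup.mk' G), ∀ x, z (g * x * g⁻¹) = z x)
    (hz0 : ∀ x, x ∉ G → z x = 0) (c : F) (D : ℕ) :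
    (Nat.card U : ℤ) * Kd p red D (fun x : ↥(U.comap (QuotientGroup.mk' G) ⊓ chainStabilizer σ) =>
      z x) c =
      ∑ᶠ ψ : {ψ : NG G σ → ℂ // IsIrreducibleCharacter ψ ∧
        centralValue red ψ (fun n : NG G σ => z n) = c},
        (if df p ψ.1 + (Nat.card ↥(NEbar G σ ψ.1 ⊓ U)).factorization p = D then
          (Nat.card ↥(NEbar G σ ψ.1 ⊓ U) : ℤ) ^ 2 else 0) := by
  have h1 := rel_term (p := p) red parts.cl U hU σ hz hz0 c D
  have hpos : (Nat.card (NG G σ) : ℤ) ≠ 0 := by exact_mod_cast Nat.card_pos.ne'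
  apply mul_left_cancel₀ hpos
  rw [mul_finsum]
  have h2 : (Nat.card (NG G σ) : ℤ) * ((Nat.card U : ℤ) * Kd p red D
      (fun x : ↥(U.comap (QuotientGroup.mk' G) ⊓ chainStabilizer σ) => z x) c) =
      fw p red D z c (U.comap (QuotientGroup.mk' G) ⊓ chainStabilizer σ) := by
    unfold fw
    rw [card_stab U σ hF]
    push_cast
    ring
  rw [h2, h1]
  refine finsum_congr fun ψ => ?_
  by_cases h3 : df p ψ.1 + (Nat.card ↥(NEbar G σ ψ.1 ⊓ U)).factorization p = D
  · rw [if_pos h3, if_pos h3]
  · rw [if_neg h3, if_neg h3, mul_zero]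

/-- the isomorphism with a stabiliser -/
def stE (Q : Subgroup G) (σ : Set (Subgroup E))
    (hQ : ∀ x : G, x ∈ Subgroup.normalizer (Q : Set G) ↔ (x : E) ∈ chainStabilizer σ) :
    ↥(Subgroup.normalizer (Q : Set G)) ≃* NG G σ where
  toFun x := ⟨x.1.1, Subgroup.mem_inf.2 ⟨x.1.2, (hQ x.1).1 x.2⟩⟩
  invFun x := ⟨⟨x.1, (Subgroup.mem_inf.1 x.2).1⟩, (hQ _).2 (Subgroup.mem_inf.1 x.2).2⟩
  left_inv _ := rfl
  right_inv _ := rfl
  map_mul' _ _ := rfl

variable [IsAlgClosed F] [CharP F p]

/-- the block induced by a character of `N_G(C)` and the bound for the defect -/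
theorem df_le (hMM : S_MM) (hHT : S_HT) (hID : S_ID) (hUP : S_UP) {Q : Subgroup G}
    (hQp : IsPGroup p Q) {σ : Set (Subgroup E)}
    (hQ : ∀ x : G, x ∈ Subgroup.normalizer (Q : Set G) ↔ (x : E) ∈ chainStabilizer σ)
    {ψ : NG G σ → ℂ} (hψ : IsIrreducibleCharacter ψ) :
    IsBlock (fun f : G → F => centralValue red ψ (fun x => f ⟨x, ng_le G σ x.2⟩)) ∧
    ∀ (B : (G → F) → F), IsBlock B → IndB red G σ ψ B → ∀ D : Subgroup G, IsDefectGroup p B D →
      ∀ δ : ℕ, Nat.card D = p ^ δ → df p ψ ≤ δ := by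
  let e := stE Q σ hQ
  have hψ' : IsIrreducibleCharacter (fun x => ψ (e x)) := irr_comp' e hψ
  obtain ⟨b1, b2⟩ := hUP p F red G Q hQp _ hψ'
  have hcv : ∀ f : G → F, IsClassFun f →
      centralValue red (fun x => ψ (e x)) (fun x : ↥(Subgroup.normalizer (Q : Set G)) => f x) =
        centralValue red ψ (fun x => f ⟨x, ng_le G σ x.2⟩) := by
    intro f hf
    exact Pool.Agent.Y286.NV.centralValue_comp red e ψ (Pool.Agent.Y286.NV.irr_class hψ)
      (fun x : NG G σ => f ⟨x, ng_le G σ x.2⟩) (fun g x => hf ⟨g, ng_le G σ g.2⟩ ⟨x, ng_le G σ x.2⟩)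
  refine ⟨⟨fun f g hf hg => ?_, fun a f hf => ?_, ?_, fun f g hf hg => ?_⟩, ?_⟩
  · have h1 := b2.add f g hf hg
    change centralValue red (fun x => ψ (e x))
      (fun x : ↥(Subgroup.normalizer (Q : Set G)) => (f + g) x) = _ at h1
    rw [hcv _ (Pool.Agent.N85.WM.cl_add hf hg)] at h1
    change _ = centralValue red (fun x => ψ (e x)) (fun x : ↥(Subgroup.normalizer (Q : Set G)) => f x) +
      centralValue red (fun x => ψ (e x)) (fun x : ↥(Subgroup.normalizer (Q : Set G)) => g x) at h1
    rw [hcv f hf, hcv g hg] at h1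
    exact h1
  · have h1 := b2.smul a f hf
    change centralValue red (fun x => ψ (e x))
      (fun x : ↥(Subgroup.normalizer (Q : Set G)) => (a • f) x) = a * centralValue red
        (fun x => ψ (e x)) (fun x : ↥(Subgroup.normalizer (Q : Set G)) => f x) at h1
    rw [hcv _ (Pool.Agent.N85.WM.cl_smul a hf), hcv f hf] at h1
    exact h1
  · refine (hcv _ ?_).symm.trans b2.one
    intro g x
    by_cases hx : x = 1
    · rw [hx, mul_one, mul_inv_cancel]
    · have hx' : g * x * g⁻¹ ≠ 1 := by
        intro h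
        apply hx
        rwa [mul_inv_eq_one, mul_eq_left] at h
      have e0 : ∀ (i : DecidableEq G) (y : G), y ≠ 1 →
          (@Pi.single G (fun _ => F) _ i (1 : G) (1 : F) : G → F) y = 0 := by
        intro i y hy
        exact @Pi.single_eq_of_ne G (fun _ => F) _ i 1 y hy 1
      exact (e0 _ _ hx').trans (e0 _ _ hx).symm
  · have h1 := b2.mul f g hf hg
    change centralValue red (fun x => ψ (e x))
      (fun x : ↥(Subgroup.normalizer (Q : Set G)) => (conv f g) x) = centralValue red
        (fun x => ψ (e x)) (fun x : ↥(Subgroup.normalizer (Q : Set G)) => f x) * centralValue red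
        (fun x => ψ (e x)) (fun x : ↥(Subgroup.normalizer (Q : Set G)) => g x) at h1
    rw [hcv _ (Pool.Agent.Y63.NV.B286.conv_class hf hg), hcv f hf, hcv g hg] at h1
    exact h1
  · intro B hB hind D hD δ hδ
    obtain ⟨Q1, hQ1⟩ := (hMM p F _ _ b1).1
    have hQ1p : IsPGroup p Q1 := hQ1.choose_spec.2.2.2.1
    obtain ⟨q, hq⟩ := IsPGroup.iff_card.1 hQ1p
    have h1 : df p ψ ≤ q := by
      refine hHT p F red _ _ b1 (fun x => ψ (e x)) hψ' (fun f _ => rfl) (df p ψ) ?_ Q1 hQ1 q hq
      rw [HasDef, dg_comp e]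
      have h2 := (hasDef_iff (p := p) hψ).2 rfl
      rw [HasDef, ← Nat.card_congr e.toEquiv] at h2
      exact h2
    obtain ⟨g, hg⟩ := hID p F G _ _ B b1 hB (fun f hf => by
      rw [hcv f hf]
      exact hind f hf) Q1 D hQ1 hD
    have h2 : Nat.card (conjSub g (Q1.map (Subgroup.normalizer (Q : Set G)).subtype)) = p ^ q := by
      rw [← hq]
      have e1 : Nat.card (conjSub g (Q1.map (Subgroup.normalizer (Q : Set G)).subtype)) =
          Nat.card (Q1.map (Subgroup.normalizer (Q : Set G)).subtype) :=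
        Nat.card_congr
          (Subgroup.equivMapOfInjective _ _ (MulAut.conj g).injective).toEquiv.symm
      rw [e1]
      exact Nat.card_congr (Subgroup.equivMapOfInjective _ _
        (Subgroup.subtype_injective _)).toEquiv.symm
    have h3 := Subgroup.card_dvd_of_le hg
    rw [h2, hδ] at h3
    have h4 := (Nat.pow_dvd_pow_iff_le_right (Fact.out : p.Prime).one_lt).1 h3
    exact h1.trans h4

/-- isomorphic groups with compatible functions -/
theorem kd_of_iso {J₁ J₂ : Type} [Group J₁] [Group J₂] [Finite J₁] [Finite J₂] (e : J₁ ≃* J₂)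
    {f₁ : J₁ → F} {f₂ : J₂ → F} (h : ∀ x, f₁ x = f₂ (e x)) (hf : IsClassFun f₂) (c : F) (D : ℕ) :
    Kd p red D f₁ c = Kd p red D f₂ c := by
  rw [← kd_iso (p := p) red e hf c D]
  congr 1
  funext x
  exact h x

/-- two families -/
theorem comb2 (hCOMB : S_COMB) {A : Type} [Group A] [Finite A] (p : ℕ) [Fact p.Prime]
    {Y : Bool → Type} (hY : ∀ b, Finite (Y b)) (T : ∀ b, Y b → Subgroup A) (dd : ∀ b, Y b → ℕ)
    {δ : ℕ} (hdd : ∀ b y, dd b y ≤ δ) {U₀ : Subgroup A} (hU₀ : IsCyclic U₀)
    (hrel : ∀ U ≤ U₀, ∑ᶠ y : Y true, (if dd true y + (Nat.card ↥(T true y ⊓ U)).factorization p =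
          δ + (Nat.card U).factorization p then (Nat.card ↥(T true y ⊓ U) : ℤ) ^ 2 else 0) =
      ∑ᶠ y : Y false, (if dd false y + (Nat.card ↥(T false y ⊓ U)).factorization p =
          δ + (Nat.card U).factorization p then (Nat.card ↥(T false y ⊓ U) : ℤ) ^ 2 else 0)) :
    Nat.card {y : Y true // dd true y = δ ∧ U₀ ≤ T true y} =
      Nat.card {y : Y false // dd false y = δ ∧ U₀ ≤ T false y} := by
  have _i : ∀ b, Fintype (Y b) := fun b => Fintype.ofFinite _
  let w : (Σ b, Y b) → ℤ := fun ω => if dd ω.1 ω.2 = δ then (if ω.1 = true then 1 else -1) else 0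
  have h := hCOMB (Σ b, Y b) A p w (fun _ => 1) (fun ω => T ω.1 ω.2) U₀ hU₀ (by
    intro U hU D hD
    have hv : ∀ b (y : Y b), (Nat.card ↥(T b y ⊓ U)).factorization p ≤
        (Nat.card U).factorization p := fun b y =>
      (Nat.factorization_le_iff_dvd Nat.card_pos.ne' Nat.card_pos.ne').2
        (Subgroup.card_dvd_of_le inf_le_right) p
    rw [finsum_eq_sum_of_fintype, Fintype.sum_sigma, Fintype.sum_bool]
    rcases Nat.lt_or_ge ((Nat.card U).factorization p + 1) D with hlt | hge
    · have h0 : ∀ b, ∑ y : Y b, (if 1 + (Nat.card ↥(T b y ⊓ U)).factorization p = D then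
          w ⟨b, y⟩ * (Nat.card ↥(T b y ⊓ U) : ℤ) ^ 2 else 0) = 0 := by
        intro b
        refine Finset.sum_eq_zero fun y _ => if_neg ?_
        have := hv b y
        omega
      exact (congrArg₂ (· + ·) (h0 true) (h0 false)).trans (add_zero 0)
    · have hD' : D = (Nat.card U).factorization p + 1 := le_antisymm hge hD
      have h1 := hrel U hU
      rw [finsum_eq_sum_of_fintype, finsum_eq_sum_of_fintype] at h1
      have ht : ∑ y : Y true, (if 1 + (Nat.card ↥(T true y ⊓ U)).factorization p = D then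
          w ⟨true, y⟩ * (Nat.card ↥(T true y ⊓ U) : ℤ) ^ 2 else 0) =
          ∑ y : Y true, (if dd true y + (Nat.card ↥(T true y ⊓ U)).factorization p =
          δ + (Nat.card U).factorization p then (Nat.card ↥(T true y ⊓ U) : ℤ) ^ 2 else 0) := by
        refine Finset.sum_congr rfl fun y _ => ?_
        have h2 := hv true y
        have h3 := hdd true y
        by_cases h4 : dd true y = δ
        · have hw : w ⟨true, y⟩ = 1 := by
            change (if dd true y = δ then (if true = true then (1 : ℤ) else -1) else 0) = 1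
            rw [if_pos h4, if_pos rfl]
          rw [hw, one_mul]
          by_cases h5 : (Nat.card ↥(T true y ⊓ U)).factorization p = (Nat.card U).factorization p
          · rw [if_pos (by omega), if_pos (by omega)]
          · rw [if_neg (by omega), if_neg (by omega)]
        · have hw : w ⟨true, y⟩ = 0 := by
            change (if dd true y = δ then (if true = true then (1 : ℤ) else -1) else 0) = 0
            rw [if_neg h4]
          rw [hw, zero_mul, ite_self, if_neg (by omega)]
      have hf : ∑ y : Y false, (if 1 + (Nat.card ↥(T false y ⊓ U)).factorization p = D then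
          w ⟨false, y⟩ * (Nat.card ↥(T false y ⊓ U) : ℤ) ^ 2 else 0) =
          -∑ y : Y false, (if dd false y + (Nat.card ↥(T false y ⊓ U)).factorization p =
          δ + (Nat.card U).factorization p then (Nat.card ↥(T false y ⊓ U) : ℤ) ^ 2 else 0) := by
        rw [← Finset.sum_neg_distrib]
        refine Finset.sum_congr rfl fun y _ => ?_
        have h2 := hv false y
        have h3 := hdd false y
        by_cases h4 : dd false y = δ
        · have hw : w ⟨false, y⟩ = -1 := by
            change (if dd false y = δ then (if false = true then (1 : ℤ) else -1) else 0) = -1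
            rw [if_pos h4, if_neg (by simp)]
          rw [hw, neg_one_mul]
          by_cases h5 : (Nat.card ↥(T false y ⊓ U)).factorization p = (Nat.card U).factorization p
          · rw [if_pos (by omega), if_pos (by omega)]
          · rw [if_neg (by omega), if_neg (by omega), neg_zero]
        · have hw : w ⟨false, y⟩ = 0 := by
            change (if dd false y = δ then (if false = true then (1 : ℤ) else -1) else 0) = 0
            rw [if_neg h4]
          rw [hw, zero_mul, ite_self, if_neg (by omega), neg_zero]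
      refine (congrArg₂ (· + ·) ht hf).trans ?_
      rw [h1, add_neg_cancel]) 1 le_rfl
  rw [finsum_eq_sum_of_fintype, Fintype.sum_sigma, Fintype.sum_bool] at h
  have ht : ∑ y : Y true, (if 1 = 1 ∧ U₀ ≤ T true y then w ⟨true, y⟩ else 0) =
      (Nat.card {y : Y true // dd true y = δ ∧ U₀ ≤ T true y} : ℤ) := by
    rw [Nat.card_eq_fintype_card, Fintype.card_subtype, Finset.card_filter, Nat.cast_sum]
    refine Finset.sum_congr rfl fun y _ => ?_
    change (if 1 = 1 ∧ U₀ ≤ T true y then
      (if dd true y = δ then (if true = true then (1 : ℤ) else -1) else 0) else 0) = _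
    by_cases h4 : dd true y = δ <;> by_cases h5 : U₀ ≤ T true y <;> simp [h4, h5]
  have hf : ∑ y : Y false, (if 1 = 1 ∧ U₀ ≤ T false y then w ⟨false, y⟩ else 0) =
      -(Nat.card {y : Y false // dd false y = δ ∧ U₀ ≤ T false y} : ℤ) := by
    rw [Nat.card_eq_fintype_card, Fintype.card_subtype, Finset.card_filter, Nat.cast_sum,
      ← Finset.sum_neg_distrib]
    refine Finset.sum_congr rfl fun y _ => ?_
    change (if 1 = 1 ∧ U₀ ≤ T false y then
      (if dd false y = δ then (if false = true then (1 : ℤ) else -1) else 0) else 0) = _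
    by_cases h4 : dd false y = δ <;> by_cases h5 : U₀ ≤ T false y <;> simp [h4, h5]
  have h6 := (congrArg₂ (· + ·) ht hf).symm.trans h
  change (Nat.card {y : Y true // dd true y = δ ∧ U₀ ≤ T true y} : ℤ) +
    -(Nat.card {y : Y false // dd false y = δ ∧ U₀ ≤ T false y} : ℤ) = 0 at h6
  have h7 := eq_neg_of_add_eq_zero_left h6
  rw [neg_neg] at h7
  exact_mod_cast h7

/-- **the equality for the subgroups of a group `E/G`** -/
theorem EQ (hMM : S_MM) (hHT : S_HT) (hID : S_ID) (hUP : S_UP) (hZE : S_ZE) (hAMK : S_AMK) :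
    S_EQ := by
  intro p _ F _ _ _ red E _ _ G _ U₀ hU₀ B D hDG hB hD δ hδ hAM hF
  by_cases hI : InvBl G (U₀.comap (QuotientGroup.mk' G)) B
  swap
  · have h0 : ∀ σ : Set (Subgroup E), kdGe p red G B δ U₀ σ = 0 := by
      intro σ
      unfold kdGe
      have : IsEmpty {χ : NG G σ → ℂ // IsIrreducibleCharacter χ ∧ HasDef p δ χ ∧
          U₀ ≤ NEbar G σ χ ∧ IndB red G σ χ B} :=
        ⟨fun χ => hI (parts.inv2 p F red E G U₀ B σ χ.1 hB χ.2.1 χ.2.2.2.1 χ.2.2.2.2)⟩
      exact Nat.card_of_isEmpty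
    rw [h0, h0]
  obtain ⟨hGK₀, -⟩ := comap_rel U₀
  have hDp : IsPGroup p (D.subgroupOf G) := hD.choose_spec.2.2.2.1
  have hδ' : Nat.card (D.subgroupOf G) = p ^ δ := by
    rw [← hδ]
    exact Nat.card_congr (Subgroup.subgroupOfEquivOfLe hDG).toEquiv
  have hirange : ∀ {K : Subgroup E} (hGK : G ≤ K),
      (Subgroup.inclusion hGK).range = G.subgroupOf K := fun {K} hGK => Subgroup.inclusion_range hGK
  have hnor : ∀ {K : Subgroup E} (hGK : G ≤ K), (Subgroup.inclusion hGK).range.Normal := by
    intro K hGK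
    rw [hirange]
    exact Subgroup.normal_subgroupOf
  -- the class function
  obtain ⟨z₀, hz₀⟩ := hZE p F G (U₀.comap (QuotientGroup.mk' G)) (Subgroup.inclusion hGK₀) B
    (D.subgroupOf G) (Subgroup.inclusion_injective hGK₀) (hnor hGK₀) hB hD (by
      intro k f f' hf h
      exact hI k k.2 f f' hf fun x y hxy => h x y (Subtype.ext hxy))
  let z : E → F := fun x => if h : x ∈ U₀.comap (QuotientGroup.mk' G) then z₀ ⟨x, h⟩ else 0
  have hz_mem : ∀ x : ↥(U₀.comap (QuotientGroup.mk' G)), z x = z₀ x := fun x => dif_pos x.2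
  have hz : ∀ g ∈ U₀.comap (QuotientGroup.mk' G), ∀ x, z (g * x * g⁻¹) = z x := by
    intro g hg x
    by_cases hx : x ∈ U₀.comap (QuotientGroup.mk' G)
    · have hx' : g * x * g⁻¹ ∈ U₀.comap (QuotientGroup.mk' G) :=
        Subgroup.mul_mem _ (Subgroup.mul_mem _ hg hx) (Subgroup.inv_mem _ hg)
      have h1 := hz_mem ⟨_, hx⟩
      have h2 := hz_mem ⟨_, hx'⟩
      change z x = _ at h1
      change z (g * x * g⁻¹) = _ at h2
      rw [h1, h2]
      exact hz₀.cl ⟨g, hg⟩ ⟨x, hx⟩
    · have hx' : g * x * g⁻¹ ∉ U₀.comap (QuotientGroup.mk' G) := by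
        intro h
        apply hx
        have h1 := Subgroup.mul_mem _ (Subgroup.mul_mem _ (Subgroup.inv_mem _ hg) h) hg
        have e : g⁻¹ * (g * x * g⁻¹) * g = x := by group
        rwa [e] at h1
      change (if h : _ then _ else _) = (if h : _ then _ else _)
      rw [dif_neg hx, dif_neg hx']
  have hz0 : ∀ x, x ∉ G → z x = 0 := by
    intro x hx
    by_cases hx' : x ∈ U₀.comap (QuotientGroup.mk' G)
    · have h1 := hz_mem ⟨x, hx'⟩
      change z x = _ at h1
      rw [h1]
      refine hz₀.supp _ fun h => hx ?_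
      rw [hirange hGK₀] at h
      exact h
    · exact dif_neg hx'
  have hzG : ∀ x : G, z x = z₀ (Subgroup.inclusion hGK₀ x) := fun x =>
    hz_mem (Subgroup.inclusion hGK₀ x)
  have hcl : IsClassFun (fun x : G => z x) := fun g x => hz g (hGK₀ g.2) x
  have hone : B (fun x : G => z x) = 1 := by
    have h1 := hz₀.one
    have h2 : (fun x : G => z₀ (Subgroup.inclusion hGK₀ x)) = fun x : G => z x :=
      funext fun x => (hzG x).symm
    rw [h2] at h1
    exact h1
  have hsep : ∀ B' : (G → F) → F, IsBlock B' → B' (fun x : G => z x) = 1 →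
      ∀ f : G → F, IsClassFun f → B' f = B f := by
    intro B' hB' h1
    have h2 : (fun x : G => z₀ (Subgroup.inclusion hGK₀ x)) = fun x : G => z x :=
      funext fun x => (hzG x).symm
    exact hz₀.sep B' hB' (by rw [h2]; exact h1)
  -- the two chains
  let σb : Bool → Set (Subgroup E) := fun b => if b then ∅ else {D}
  have hσt : σb true = ∅ := if_pos rfl
  have hσf : σb false = {D} := if_neg (by simp)
  have hst : ∀ x : E, x ∈ chainStabilizer ({D} : Set (Subgroup E)) ↔
      x ∈ Subgroup.normalizer (D : Set E) := by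
    intro x
    rw [mem_chainStabilizer]
    constructor
    · intro h
      exact conjSub_eq_iff.1 (h D rfl)
    · rintro h P hP
      rw [Set.mem_singleton_iff.1 hP]
      exact conjSub_eq_iff.2 h
  have hse : ∀ x : E, x ∈ chainStabilizer (∅ : Set (Subgroup E)) := by
    intro x
    rw [mem_chainStabilizer]
    exact fun P hP => absurd hP (Set.notMem_empty P)
  have hQ : ∀ b, ∃ Q : Subgroup G, IsPGroup p Q ∧
      ∀ x : G, x ∈ Subgroup.normalizer (Q : Set G) ↔ (x : E) ∈ chainStabilizer (σb b) := by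
    intro b
    cases b
    · refine ⟨D.subgroupOf G, hDp, fun x => ?_⟩
      rw [hσf, hst]
      exact Pool.Agent.R674.KB.norm_sub hDG x
    · refine ⟨⊥, IsPGroup.of_bot, fun x => ?_⟩
      rw [hσt]
      refine iff_of_true ?_ (hse x)
      rw [Subgroup.normalizer_eq_top]
      trivial
  have hFσ : ∀ b, ∀ U ≤ U₀, ∀ g ∈ U.comap (QuotientGroup.mk' G),
      ∃ h ∈ G, h⁻¹ * g ∈ chainStabilizer (σb b) := by
    intro b U hU g hg
    cases b
    · obtain ⟨h, hh, h2⟩ := hF g (hU hg)
      refine ⟨h, hh, ?_⟩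
      rw [hσf, hst]
      exact h2
    · refine ⟨1, G.one_mem, ?_⟩
      rw [hσt]
      exact hse _
  -- the relation
  have hrel : ∀ U ≤ U₀, ∑ᶠ ψ : {ψ : NG G (σb true) → ℂ // IsIrreducibleCharacter ψ ∧
        centralValue red ψ (fun n : NG G (σb true) => z n) = 1},
        (if df p ψ.1 + (Nat.card ↥(NEbar G (σb true) ψ.1 ⊓ U)).factorization p =
          δ + (Nat.card U).factorization p then
          (Nat.card ↥(NEbar G (σb true) ψ.1 ⊓ U) : ℤ) ^ 2 else 0) =
      ∑ᶠ ψ : {ψ : NG G (σb false) → ℂ // IsIrreducibleCharacter ψ ∧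
        centralValue red ψ (fun n : NG G (σb false) => z n) = 1},
        (if df p ψ.1 + (Nat.card ↥(NEbar G (σb false) ψ.1 ⊓ U)).factorization p =
          δ + (Nat.card U).factorization p then
          (Nat.card ↥(NEbar G (σb false) ψ.1 ⊓ U) : ℤ) ^ 2 else 0) := by
    intro U hU
    have hUc : IsCyclic U :=
      isCyclic_of_injective (Subgroup.inclusion hU) (Subgroup.inclusion_injective hU)
    obtain ⟨hGK, hrelI⟩ := comap_rel U
    have hKK₀ : U.comap (QuotientGroup.mk' G) ≤ U₀.comap (QuotientGroup.mk' G) :=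
      Subgroup.comap_mono hU
    have hzU : ∀ g ∈ U.comap (QuotientGroup.mk' G), ∀ x, z (g * x * g⁻¹) = z x :=
      fun g hg x => hz g (hKK₀ hg) x
    rw [← rel_div (p := p) red U hUc (σb true) (hFσ true U hU) hzU hz0 1
        (δ + (Nat.card U).factorization p),
      ← rel_div (p := p) red U hUc (σb false) (hFσ false U hU) hzU hz0 1
        (δ + (Nat.card U).factorization p)]
    congr 2
    set K := U.comap (QuotientGroup.mk' G) with hK
    have hsit : Sit p (Subgroup.inclusion hGK) B (D.subgroupOf G) (fun x : K => z x) := by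
      refine ⟨Subgroup.inclusion_injective hGK, hnor hGK, hB, hD, ?_, fun g x => hzU g g.2 x, ?_,
        hone, hsep, ?_⟩
      · intro k f f' hf h
        exact hI k (hKK₀ k.2) f f' hf fun x y hxy => h x y (Subtype.ext hxy)
      · intro x hx
        refine hz0 x fun h => hx ?_
        rw [hirange hGK]
        exact h
      · intro x hx
        refine hz₀.ideal x ?_
        rw [← hzG x]
        exact hx
    have hmap : (D.subgroupOf G).map (Subgroup.inclusion hGK) = D.subgroupOf K := by
      ext x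
      rw [Subgroup.mem_map]
      constructor
      · rintro ⟨y, hy, rfl⟩
        exact hy
      · intro hx
        exact ⟨⟨x.1, hDG hx⟩, hx, rfl⟩
    obtain ⟨hAK, hAN⟩ := hAM U hU K hK
    have h1 := hAMK p F red G K (Subgroup.inclusion hGK) B (D.subgroupOf G) (fun x : K => z x)
      hsit δ hδ' hAK (hAN _ (by rw [hmap]))
    have hidx : ((Subgroup.inclusion hGK).range.index).factorization p =
        (Nat.card U).factorization p := by
      rw [hirange hGK]
      change (G.relIndex K).factorization p = _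
      rw [hrelI]
    rw [hidx] at h1
    let e1 : ↥(K ⊓ chainStabilizer (σb true)) ≃* K :=
      { toFun := fun x => ⟨x.1, (Subgroup.mem_inf.1 x.2).1⟩
        invFun := fun x => ⟨x.1, Subgroup.mem_inf.2 ⟨x.2, by rw [hσt]; exact hse _⟩⟩
        left_inv := fun x => rfl
        right_inv := fun x => rfl
        map_mul' := fun x y => rfl }
    have hDK : D ≤ K := hDG.trans hGK
    have hnn : ∀ x : K, x ∈ Subgroup.normalizer
        (((D.subgroupOf G).map (Subgroup.inclusion hGK) : Subgroup K) : Set K) ↔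
        (x : E) ∈ chainStabilizer (σb false) := by
      intro x
      rw [hmap, hσf, hst]
      exact Pool.Agent.R674.KB.norm_sub hDK x
    let e2 : ↥(K ⊓ chainStabilizer (σb false)) ≃* ↥(Subgroup.normalizer
        (((D.subgroupOf G).map (Subgroup.inclusion hGK) : Subgroup K) : Set K)) :=
      { toFun := fun x => ⟨⟨x.1, (Subgroup.mem_inf.1 x.2).1⟩,
          (hnn ⟨x.1, (Subgroup.mem_inf.1 x.2).1⟩).2 (Subgroup.mem_inf.1 x.2).2⟩
        invFun := fun x => ⟨x.1.1, Subgroup.mem_inf.2 ⟨x.1.2, (hnn x.1).1 x.2⟩⟩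
        left_inv := fun x => rfl
        right_inv := fun x => rfl
        map_mul' := fun x y => rfl }
    have h2 : Kd p red (δ + (Nat.card U).factorization p)
        (fun x : ↥(K ⊓ chainStabilizer (σb true)) => z x) 1 =
        Kd p red (δ + (Nat.card U).factorization p) (fun x : K => z x) 1 :=
      kd_of_iso (p := p) red e1 (f₁ := fun x : ↥(K ⊓ chainStabilizer (σb true)) => z x)
        (f₂ := fun x : K => z x) (fun x => rfl) (fun g x => hzU g g.2 x) 1 _
    have h3 : Kd p red (δ + (Nat.card U).factorization p)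
        (fun x : ↥(K ⊓ chainStabilizer (σb false)) => z x) 1 =
        Kd p red (δ + (Nat.card U).factorization p)
          (fun x : ↥(Subgroup.normalizer
            (((D.subgroupOf G).map (Subgroup.inclusion hGK) : Subgroup K) : Set K)) => z x) 1 :=
      kd_of_iso (p := p) red e2 (f₁ := fun x : ↥(K ⊓ chainStabilizer (σb false)) => z x)
        (f₂ := fun x : ↥(Subgroup.normalizer
          (((D.subgroupOf G).map (Subgroup.inclusion hGK) : Subgroup K) : Set K)) => z x)
        (fun x => rfl) (fun g x => hzU g g.1.2 x) 1 _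
    rw [h2, h3, h1]
  -- characters with the value one
  have hchar : ∀ b, ∀ ψ : NG G (σb b) → ℂ, IsIrreducibleCharacter ψ →
      (centralValue red ψ (fun n : NG G (σb b) => z n) = 1 ↔ IndB red G (σb b) ψ B) ∧
      (centralValue red ψ (fun n : NG G (σb b) => z n) = 1 → df p ψ ≤ δ) := by
    intro b ψ hψ
    obtain ⟨Q, hQp, hQ2⟩ := hQ b
    obtain ⟨h1, h2⟩ := df_le (p := p) red hMM hHT hID hUP hQp hQ2 hψ
    have h3 : centralValue red ψ (fun n : NG G (σb b) => z n) = 1 → IndB red G (σb b) ψ B :=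
      fun h => hsep _ h1 h
    refine ⟨⟨h3, fun h => ?_⟩, fun h => h2 B hB (h3 h) _ hD δ hδ'⟩
    rw [← hone]
    exact h (fun x : G => z x) hcl
  -- the count
  have hcount : ∀ b, kdGe p red G B δ U₀ (σb b) = Nat.card {ψ : {ψ : NG G (σb b) → ℂ //
      IsIrreducibleCharacter ψ ∧ centralValue red ψ (fun n : NG G (σb b) => z n) = 1} //
        df p ψ.1 = δ ∧ U₀ ≤ NEbar G (σb b) ψ.1} := by
    intro b
    unfold kdGe
    exact Nat.card_congr
      { toFun := fun ψ => ⟨⟨ψ.1, ψ.2.1, ((hchar b ψ.1 ψ.2.1).1).2 ψ.2.2.2.2⟩,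
          (hasDef_iff ψ.2.1).1 ψ.2.2.1, ψ.2.2.2.1⟩
        invFun := fun ψ => ⟨ψ.1.1, ψ.1.2.1, (hasDef_iff ψ.1.2.1).2 ψ.2.1, ψ.2.2,
          ((hchar b ψ.1.1 ψ.1.2.1).1).1 ψ.1.2.2⟩
        left_inv := fun ψ => rfl
        right_inv := fun ψ => rfl }
  have hfin := comb2 parts.comb p (Y := fun b => {ψ : NG G (σb b) → ℂ //
      IsIrreducibleCharacter ψ ∧ centralValue red ψ (fun n : NG G (σb b) => z n) = 1})
    (fun b => fin_irc (G := G) red (σb b) z 1) (fun b ψ => NEbar G (σb b) ψ.1)
    (fun b ψ => df p ψ.1) (δ := δ) (fun b ψ => (hchar b ψ.1 ψ.2.1).2 ψ.2.2) hU₀ hrel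
  have h1 : kdGe p red G B δ U₀ (σb true) = kdGe p red G B δ U₀ (σb false) := by
    rw [hcount true, hcount false]
    exact hfin
  rw [hσt, hσf] at h1
  exact h1

end

end Pool.Agent.N20.AE
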