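import Pool.Agent.N20.DI.Stm2
import Pool.Agent.Y63.NV.Stm3

/-!
# The Alperin–McKay conjecture and automorphisms: definitions and statements
-/

set_option autoImplicit false

open scoped Classical BigOperators

noncomputable section

namespace Pool.Agent.N20.AE

open Pool.Agent.Y63.NV
open Pool.Agent.Y63.KR
open Pool.Agent.Y63.AWC (IsIrreducibleCharacter)
open Pool.Agent.R674.Tw (Fixes NG NE NEbar ng_le IndB)
open Pool.Agent.N20.DI (HasDef Kd InvBl)

/-- the number of irreducible characters of defect `d` in the block `B` -/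
def kB (p : ℕ) {F : Type} [Field F] (red : integralClosure ℤ ℂ →+* F) (d : ℕ) {H : Type} [Group H]
    (B : (H → F) → F) : ℕ :=
  Nat.card {χ : H → ℂ // IsIrreducibleCharacter χ ∧ HasDef p d χ ∧
    ∀ f : H → F, IsClassFun f → centralValue red χ f = B f}

/-- the number of irreducible characters `χ` of defect `d` of the subgroup `N` whose block induces
the block `B` of `H` -/
def kI (p : ℕ) {F : Type} [Field F] (red : integralClosure ℤ ℂ →+* F) (d : ℕ) {H : Type} [Group H]
    (N : Subgroup H) (B : (H → F) → F) : ℕ :=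
  Nat.card {χ : N → ℂ // IsIrreducibleCharacter χ ∧ HasDef p d χ ∧
    ∀ f : H → F, IsClassFun f → centralValue red χ (fun x => f x) = B f}

/-- The Alperin–McKay conjecture for the blocks of `H`. -/
def AMc (p : ℕ) {F : Type} [Field F] (red : integralClosure ℤ ℂ →+* F) (H : Type) [Group H] :
    Prop :=
  ∀ B : (H → F) → F, IsBlock B → ∀ D : Subgroup H, IsDefectGroup p B D →
    ∀ d : ℕ, Nat.card D = p ^ d →
      kB p red d B = kI p red d (Subgroup.normalizer (D : Set H)) B

/-- every `p`-subgroup of `C(x)` is conjugate to a subgroup of `D` -/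
def SubD (p : ℕ) {H : Type} [Group H] (D : Subgroup H) (x : H) : Prop :=
  ∀ S : Subgroup H, IsPGroup p S → S ≤ Subgroup.centralizer {x} → ∃ g : H, conjSub g S ≤ D

/-- MM: the min-max theorem -/
def S_MM : Prop := ∀ (p : ℕ) [Fact p.Prime] (F : Type) [Field F] [IsAlgClosed F] [CharP F p]
    (H : Type) [Group H] [Finite H] (B : (H → F) → F), IsBlock B →
    (∃ D : Subgroup H, IsDefectGroup p B D) ∧
    (∀ D : Subgroup H, IsDefectGroup p B D → ∀ y : H, classValue B y ≠ 0 →
      ∃ g : H, conjSub g D ≤ Subgroup.centralizer {y}) ∧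
    (∀ D : Subgroup H, IsDefectGroup p B D → ∀ D' : Subgroup H,
      IsDefectGroup p B D' ↔ ∃ g : H, D' = conjSub g D)

/-- HT: the defect of a character is at most the defect of its block -/
def S_HT : Prop := ∀ (p : ℕ) [Fact p.Prime] (F : Type) [Field F] [IsAlgClosed F] [CharP F p]
    (red : integralClosure ℤ ℂ →+* F) (H : Type) [Group H] [Finite H] (B : (H → F) → F),
    IsBlock B → ∀ (χ : H → ℂ), IsIrreducibleCharacter χ →
    (∀ f : H → F, IsClassFun f → centralValue red χ f = B f) → ∀ (d : ℕ), HasDef p d χ →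
    ∀ D : Subgroup H, IsDefectGroup p B D → ∀ e : ℕ, Nat.card D = p ^ e → d ≤ e

/-- NP: a normal `p`-subgroup is contained in the defect groups -/
def S_NP : Prop := ∀ (p : ℕ) [Fact p.Prime] (F : Type) [Field F] [IsAlgClosed F] [CharP F p]
    (H : Type) [Group H] [Finite H] (B : (H → F) → F), IsBlock B → ∀ P : Subgroup H, P.Normal →
    IsPGroup p P → ∀ D : Subgroup H, IsDefectGroup p B D → P ≤ D

/-- ID: defect groups of induced blocks -/
def S_ID : Prop := ∀ (p : ℕ) [Fact p.Prime] (F : Type) [Field F] [IsAlgClosed F] [CharP F p]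
    (H : Type) [Group H] [Finite H] (N : Subgroup H) (b : (N → F) → F) (B : (H → F) → F),
    IsBlock b → IsBlock B → (∀ f : H → F, IsClassFun f → b (fun x => f x) = B f) →
    ∀ (Q : Subgroup N) (D : Subgroup H), IsDefectGroup p b Q → IsDefectGroup p B D →
    ∃ g : H, conjSub g (Q.map N.subtype) ≤ D

/-- UP: blocks of the normaliser of a `p`-subgroup induce blocks -/
def S_UP : Prop := ∀ (p : ℕ) [Fact p.Prime] (F : Type) [Field F] [IsAlgClosed F] [CharP F p]
    (red : integralClosure ℤ ℂ →+* F) (H : Type) [Group H] [Finite H] (Q : Subgroup H),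
    IsPGroup p Q → ∀ (χ : Subgroup.normalizer (Q : Set H) → ℂ), IsIrreducibleCharacter χ →
    IsBlock (fun f : Subgroup.normalizer (Q : Set H) → F => centralValue red χ f) ∧
    IsBlock (fun f : H → F => centralValue red χ (fun x => f x))

/-- the data: `B` is a block of `G`, embedded by `i` as a normal subgroup of `K`, `B` is invariant
under `K` and `D` is a defect group of `B`; `z` is a class function of `K` supported on `G` which
separates `B` from the other blocks and lies in the ideal of `D` -/
structure Sit (p : ℕ) {F : Type} [Field F] {G K : Type} [Group G] [Group K] (i : G →* K)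
    (B : (G → F) → F) (D : Subgroup G) (z : K → F) : Prop where
  inj : Function.Injective i
  normal : i.range.Normal
  block : IsBlock B
  defect : IsDefectGroup p B D
  inv : ∀ k : K, ∀ f f' : G → F, IsClassFun f → (∀ x y : G, i y = k * i x * k⁻¹ → f' y = f x) →
    B f' = B f
  cl : IsClassFun z
  supp : ∀ x, x ∉ i.range → z x = 0
  one : B (fun x => z (i x)) = 1
  sep : ∀ B' : (G → F) → F, IsBlock B' → B' (fun x => z (i x)) = 1 →
    ∀ f : G → F, IsClassFun f → B' f = B f
  ideal : ∀ x : G, z (i x) ≠ 0 → SubD p D x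

/-- ZE: existence of `z` -/
def S_ZE : Prop := ∀ (p : ℕ) [Fact p.Prime] (F : Type) [Field F] [IsAlgClosed F] [CharP F p]
    (G K : Type) [Group G] [Group K] [Finite G] [Finite K] (i : G →* K) (B : (G → F) → F)
    (D : Subgroup G), Function.Injective i → i.range.Normal → IsBlock B → IsDefectGroup p B D →
    (∀ k : K, ∀ f f' : G → F, IsClassFun f → (∀ x y : G, i y = k * i x * k⁻¹ → f' y = f x) →
      B f' = B f) → ∃ z : K → F, Sit p i B D z

/-- CV: defect groups of the blocks above `B` -/
def S_CV : Prop := ∀ (p : ℕ) [Fact p.Prime] (F : Type) [Field F] [IsAlgClosed F] [CharP F p]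
    (G K : Type) [Group G] [Group K] [Finite G] [Finite K] (i : G →* K) (B : (G → F) → F)
    (D : Subgroup G) (z : K → F), Sit p i B D z → ∀ (b : (K → F) → F), IsBlock b → b z = 1 →
    ∀ Q : Subgroup K, IsDefectGroup p b Q →
      (∃ k : K, conjSub k Q ⊓ i.range ≤ D.map i) ∧
      Nat.card Q ∣ Nat.card D * p ^ (i.range.index).factorization p

/-- FR: the Frattini argument -/
def S_FR : Prop := ∀ (p : ℕ) [Fact p.Prime] (F : Type) [Field F] [IsAlgClosed F] [CharP F p]
    (G K : Type) [Group G] [Group K] [Finite G] [Finite K] (i : G →* K) (B : (G → F) → F)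
    (D : Subgroup G) (z : K → F), Sit p i B D z → ∀ k : K, ∃ g : G,
      (i g)⁻¹ * k ∈ Subgroup.normalizer ((D.map i : Subgroup K) : Set K)

/-- PB: one block of `K` above `B` -/
def S_PB : Prop := ∀ (p : ℕ) [Fact p.Prime] (F : Type) [Field F] [IsAlgClosed F] [CharP F p]
    (red : integralClosure ℤ ℂ →+* F)
    (G K : Type) [Group G] [Group K] [Finite G] [Finite K] (i : G →* K) (B : (G → F) → F)
    (D : Subgroup G) (z : K → F), Sit p i B D z → ∀ δ : ℕ, Nat.card D = p ^ δ →
    AMc p red K → AMc p red (Subgroup.normalizer ((D.map i : Subgroup K) : Set K)) →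
    ∀ (b : (K → F) → F), IsBlock b → b z = 1 →
      kB p red (δ + (i.range.index).factorization p) b =
        kI p red (δ + (i.range.index).factorization p)
          (Subgroup.normalizer ((D.map i : Subgroup K) : Set K)) b

/-- AMK: all blocks of `K` above `B` -/
def S_AMK : Prop := ∀ (p : ℕ) [Fact p.Prime] (F : Type) [Field F] [IsAlgClosed F] [CharP F p]
    (red : integralClosure ℤ ℂ →+* F)
    (G K : Type) [Group G] [Group K] [Finite G] [Finite K] (i : G →* K) (B : (G → F) → F)
    (D : Subgroup G) (z : K → F), Sit p i B D z → ∀ δ : ℕ, Nat.card D = p ^ δ →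
    AMc p red K → AMc p red (Subgroup.normalizer ((D.map i : Subgroup K) : Set K)) →
      Kd p red (δ + (i.range.index).factorization p) z 1 =
        Kd p red (δ + (i.range.index).factorization p)
          (fun x : Subgroup.normalizer ((D.map i : Subgroup K) : Set K) => z x) 1

end Pool.Agent.N20.AE
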