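import Pool.Agent.N20.AE.Stm

/-!
# The Alperin–McKay conjecture and automorphisms: the final statements
-/

set_option autoImplicit false

open scoped Classical BigOperators

noncomputable section

namespace Pool.Agent.N20.AE

open Pool.Agent.Y63.NV
open Pool.Agent.Y63.KR
open Pool.Agent.Y63.AWC (IsIrreducibleCharacter)
open Pool.Agent.R674.Tw (Fixes NG NE NEbar ng_le IndB)
open Pool.Agent.N20.DI (HasDef Kd InvBl kdGe)

/-- the number of `α`-invariant irreducible characters of defect `d` in the block `B` of `G` -/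
def fixB (p : ℕ) {F : Type} [Field F] (red : integralClosure ℤ ℂ →+* F) (d : ℕ) {G : Type}
    [Group G] (B : (G → F) → F) (α : MulAut G) : ℕ :=
  Nat.card {χ : G → ℂ // IsIrreducibleCharacter χ ∧ HasDef p d χ ∧
    (∀ f : G → F, IsClassFun f → centralValue red χ f = B f) ∧ ∀ x : G, χ (α x) = χ x}

/-- the number of `α`-invariant irreducible characters `χ` of defect `d` of `N_G(D)` with
`bl(χ)^G = B` (here `α` maps `D` to itself) -/
def fixI (p : ℕ) {F : Type} [Field F] (red : integralClosure ℤ ℂ →+* F) (d : ℕ) {G : Type}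
    [Group G] (D : Subgroup G) (B : (G → F) → F) (α : MulAut G) : ℕ :=
  Nat.card {χ : Subgroup.normalizer (D : Set G) → ℂ // IsIrreducibleCharacter χ ∧ HasDef p d χ ∧
    (∀ f : G → F, IsClassFun f → centralValue red χ (fun x => f x) = B f) ∧
    ∀ x y : Subgroup.normalizer (D : Set G), (y : G) = α x → χ y = χ x}

/-- EQ: the equality for the subgroups `U` of a group `E/G` -/
def S_EQ : Prop := ∀ (p : ℕ) [Fact p.Prime] (F : Type) [Field F] [IsAlgClosed F] [CharP F p]
    (red : integralClosure ℤ ℂ →+* F) (E : Type) [Group E] [Finite E] (G : Subgroup E) [G.Normal]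
    (U₀ : Subgroup (E ⧸ G)), IsCyclic U₀ → ∀ (B : (G → F) → F) (D : Subgroup E), D ≤ G →
    IsBlock B → IsDefectGroup p B (D.subgroupOf G) → ∀ δ : ℕ, Nat.card D = p ^ δ →
    (∀ U ≤ U₀, ∀ K : Subgroup E, K = U.comap (QuotientGroup.mk' G) →
      AMc p red K ∧ ∀ N : Subgroup K, N = Subgroup.normalizer ((D.subgroupOf K : Subgroup K) : Set K) →
        AMc p red N) →
    (∀ g ∈ U₀.comap (QuotientGroup.mk' G), ∃ h ∈ G, h⁻¹ * g ∈ Subgroup.normalizer (D : Set E)) →
    kdGe p red G B δ U₀ ∅ = kdGe p red G B δ U₀ {D}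

/-- AUT: the equality for a single automorphism -/
def S_AUT : Prop := ∀ (p : ℕ) [Fact p.Prime] (F : Type) [Field F] [IsAlgClosed F] [CharP F p]
    (red : integralClosure ℤ ℂ →+* F) (G : Type) [Group G] [Finite G] (α : MulAut G)
    (B : (G → F) → F) (D : Subgroup G), IsBlock B → IsDefectGroup p B D →
    D.map α.toMonoidHom = D → ∀ δ : ℕ, Nat.card D = p ^ δ →
    (∀ (K : Type) [Group K] [Finite K], AMc p red K) →
      fixB p red δ B α = fixI p red δ D B α

end Pool.Agent.N20.AE
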